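import Pool.Agent.H15.G.R_seed8.TH793.NG.Dec
import Pool.Agent.H15.G.R_seed8.TH603.EL.Van1
import Pool.Agent.H15.G.R_seed8.TH603.EL.Van3
import Pool.Agent.H15.G.R_seed8.TH181.Nag.Tri

/-! The degeneration of the weighted planes `P(1, 1, δ)`, `δ ≥ 2`, to triangles with arbitrary
real slopes. -/

set_option autoImplicit false

namespace Pool.Agent.TH793.NG

open Pool.Agent.TH603.EL Pool.Agent.TH603.EL.Scal2 Pool.Agent.TH176.Nag

section key
variable {F : Type} [Field F]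

/-- the polynomial with the given coefficients -/
noncomputable def pf (f : (ℤ × ℤ) →₀ HK F) : PXY F :=
  ∑ m ∈ f.support, Polynomial.C (Polynomial.C (f m) * Polynomial.X ^ m.1.toNat) *
    Polynomial.X ^ m.2.toNat

theorem pf_good {δ e : ℕ} (hδ : 2 ≤ δ) {f : (ℤ × ℤ) →₀ HK F}
    (hf : ∀ m ∈ f.support, 0 ≤ m.1 ∧ 0 ≤ m.2 ∧ m.1 + δ * m.2 ≤ e) : Good δ e (pf f) := by
  unfold pf
  apply Good.sum
  intro m hm
  obtain ⟨h1, h2, h3⟩ := hf m hm
  apply Good.mono_pow hδ
  right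
  have h4 := Polynomial.natDegree_C_mul_X_pow_le (f m) m.1.toNat
  have h5 : (m.1.toNat : ℤ) = m.1 := Int.toNat_of_nonneg h1
  have h6 : (m.2.toNat : ℤ) = m.2 := Int.toNat_of_nonneg h2
  rw [h6]
  have h7 : ((Polynomial.C (f m) * Polynomial.X ^ m.1.toNat : Polynomial (HK F)).natDegree : ℤ) ≤
      m.1 := by
    rw [← h5]; exact_mod_cast h4
  linarith

theorem pf_ne {f : (ℤ × ℤ) →₀ HK F} (hf : ∀ m ∈ f.support, 0 ≤ m.1 ∧ 0 ≤ m.2) (hne : f ≠ 0) :
    pf f ≠ 0 := by
  classical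
  obtain ⟨m0, hm0⟩ := Finsupp.support_nonempty_iff.2 hne
  intro h
  have h1 := congrArg (fun p : PXY F => (p.coeff m0.2.toNat).coeff m0.1.toNat) h
  simp only [Polynomial.coeff_zero] at h1
  apply Finsupp.mem_support_iff.1 hm0
  rw [← h1]
  unfold pf
  rw [Polynomial.finsetSum_coeff, Polynomial.finsetSum_coeff, Finset.sum_eq_single m0]
  · rw [Polynomial.coeff_C_mul_X_pow, if_pos rfl, Polynomial.coeff_C_mul_X_pow, if_pos rfl]
  · intro m hm hne
    rw [Polynomial.coeff_C_mul_X_pow]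
    split_ifs with h2
    · rw [Polynomial.coeff_C_mul_X_pow]
      split_ifs with h3
      · exfalso
        apply hne
        obtain ⟨g1, g2⟩ := hf m hm
        obtain ⟨g3, g4⟩ := hf m0 hm0
        ext
        · omega
        · omega
      · rfl
    · simp
  · intro h; exact absurd hm0 h

/-- the tube in homogeneous coordinates -/
noncomputable def UU (x y : HR F) (l : ZMod 3) : HR F :=
  if l = 0 then 1 else if l = 1 then x else y

theorem UU_zero (x y : HR F) : UU x y 0 = 1 := by simp [UU]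
theorem UU_one (x y : HR F) : UU x y 1 = x := by
  unfold UU; rw [if_neg (by decide), if_pos rfl]
theorem UU_two (x y : HR F) : UU x y 2 = y := by
  unfold UU; rw [if_neg (by decide), if_neg (by decide)]

theorem ev_hom (x y : HR F) (d : ℕ) (f : (ℤ × ℤ) →₀ HK F) :
    ev (UU x y) (hom d f) = EV x y (pf f) := by
  unfold hom pf
  rw [Finsupp.sum, map_sum, map_sum]
  refine Finset.sum_congr rfl fun m _ => ?_
  have h1 : EV x y (Polynomial.C (Polynomial.C (f m) * Polynomial.X ^ m.1.toNat) *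
      Polynomial.X ^ m.2.toNat) = incl (f m) * x ^ m.1.toNat * y ^ m.2.toNat := by
    have h2 : EV x y (Polynomial.C (Polynomial.C (f m) * Polynomial.X ^ m.1.toNat) *
        Polynomial.X ^ m.2.toNat) = EV x y (Polynomial.C (Polynomial.C (f m) *
          Polynomial.X ^ m.1.toNat)) * EV x y (Polynomial.X ^ m.2.toNat) := map_mul _ _ _
    rw [h2, EV_C, EV_pow, EV_X]
    unfold evA
    rw [Polynomial.eval₂_mul, Polynomial.eval₂_C, Polynomial.eval₂_X_pow]
  rw [h1]
  unfold ev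
  rw [map_mul, map_mul, map_mul, map_pow, map_pow, map_pow]
  simp only [MvPolynomial.coe_eval₂Hom, MvPolynomial.eval₂_C, MvPolynomial.eval₂_X]
  rw [UU_zero, UU_one, UU_two, one_pow, one_mul]
  ring

end key

section pts
variable {F : Type} [Field F] [CharZero F]

theorem evp_low {x y : F} (hx : x ≠ 0) (hy : y ≠ 0) {u : HR F} {c : ℝ} (h : Low u c) :
    Low (evp hx hy u) c := by
  intro n hn
  rw [evp_coeff, h n hn, map_zero]

theorem evp_xx {x y : F} (hx : x ≠ 0) (hy : y ≠ 0) {a b s : ℝ} (hs : 0 < s)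
    (hab : a ≠ b) : evp hx hy (xx F a b s) ≠ 0 := by
  rcases lt_or_gt_of_ne hab with h | h
  · refine Van1.ne_of_coeff hx hy (a := a) (i := 1) (j := 0) ?_
    unfold xx pP pQ
    rw [HahnSeries.coeff_add, HahnSeries.coeff_add, coeff_tz, Van1.tz_coeff b a _ _ h.ne,
      Van1.tz_coeff (b + s) a _ _ (by linarith), add_zero, add_zero]
  · refine Van1.ne_of_coeff hx hy (a := b) (i := -1) (j := 0) ?_
    unfold xx pP pQ
    rw [HahnSeries.coeff_add, HahnSeries.coeff_add, coeff_tz, Van1.tz_coeff a b _ _ h.ne,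
      Van1.tz_coeff (b + s) b _ _ (by linarith), add_zero, zero_add]

theorem evp_yy {x y : F} (hx : x ≠ 0) (hy : y ≠ 0) {a b s : ℝ} (ha : 0 < a) (hb : 0 < b)
    (hs : 0 < s) (hab : a ≠ b) : evp hx hy (yy F a b s) ≠ 0 := by
  unfold yy
  rw [map_mul]
  refine mul_ne_zero ?_ ?_
  · intro h
    have h1 := congrArg (evp hx hy) (rt_mul (ord_xx F ha hb hs))
    rw [map_mul, h, zero_mul, map_add, map_one] at h1
    have h2 := congrArg (fun u : HK F => u.coeff 0) h1
    simp only [HahnSeries.coeff_zero, HahnSeries.coeff_add, HahnSeries.coeff_one, if_true] at h2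
    rw [evp_low hx hy (low_xx F ha hb hs) 0 (lt_min ha hb), add_zero] at h2
    exact one_ne_zero h2.symm
  · rcases lt_or_gt_of_ne hab with h | h
    · intro h0
      have h1 : evp hx hy (pP F a - pQ F b s) = 0 := by
        rw [← neg_sub, map_neg, h0, neg_zero]
      refine Van1.ne_of_coeff hx hy (a := a) (i := 1) (j := 0) ?_ h1
      unfold pP pQ
      rw [HahnSeries.coeff_sub, HahnSeries.coeff_add, coeff_tz, Van1.tz_coeff b a _ _ h.ne,
        Van1.tz_coeff (b + s) a _ _ (by linarith), add_zero, sub_zero]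
    · refine Van1.ne_of_coeff hx hy (a := b) (i := -1) (j := 0) ?_
      unfold pP pQ
      rw [HahnSeries.coeff_sub, HahnSeries.coeff_add, coeff_tz, Van1.tz_coeff a b _ _ h.ne,
        Van1.tz_coeff (b + s) b _ _ (by linarith), add_zero, sub_zero]

end pts

/-- emptiness on the triangle of real slopes gives emptiness in the weighted plane -/
theorem Emp_nodal {ι : Type} {w : ι → ℕ} {δ e : ℕ} (hδ : 2 ≤ δ) {a b : ℝ} (ha : 0 < a) (hb : 0 < b)
    (hab : a + b = 1) (hne : a ≠ b)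
    (h : Emp w (Reg (-(2 * a * e)) (2 * b * e) (4 * δ * a) (4 * δ * b))) :
    Emp w {m : ℤ × ℤ | 0 ≤ m.1 ∧ 0 ≤ m.2 ∧ m.1 + δ * m.2 ≤ (e : ℤ)} := by
  obtain ⟨F, _, _, x, y, hx, hy, hE⟩ := h
  obtain ⟨s, hs⟩ : ∃ s : ℝ, s = 2 * (e : ℝ) + 1 := ⟨_, rfl⟩
  have he : (0 : ℝ) ≤ e := Nat.cast_nonneg e
  have hs0 : 0 < s := by rw [hs]; linarith
  have hse : 2 * (e : ℝ) < s := by rw [hs]; linarith
  have hchar : CharZero (HK F) :=
    charZero_of_injective_ringHom (f := (HahnSeries.C : F →+* HK F)) HahnSeries.C_injective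
  have hU : ∀ i l, evp (hx i) (hy i) (UU (xx F a b s) (yy F a b s) l) ≠ 0 := by
    intro i l
    unfold UU
    split_ifs
    · rw [map_one]; exact one_ne_zero
    · exact evp_xx (hx i) (hy i) hs0 hne
    · exact evp_yy (hx i) (hy i) ha hb hs0 hne
  refine ⟨HK F, inferInstance, hchar,
    fun i => evp (hx i) (hy i) (UU (xx F a b s) (yy F a b s) 1) /
      evp (hx i) (hy i) (UU (xx F a b s) (yy F a b s) 0),
    fun i => evp (hx i) (hy i) (UU (xx F a b s) (yy F a b s) 2) /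
      evp (hx i) (hy i) (UU (xx F a b s) (yy F a b s) 0),
    fun i => div_ne_zero (hU i 1) (hU i 0), fun i => div_ne_zero (hU i 2) (hU i 0), ?_⟩
  intro f hf hLM
  by_contra hne0
  have hf0 : ∀ m ∈ f.support, 0 ≤ m.1 ∧ 0 ≤ m.2 ∧ m.1 + δ * m.2 ≤ (e : ℤ) := fun m hm => hf hm
  have hf1 : ∀ m ∈ f.support, 0 ≤ m.1 ∧ 0 ≤ m.2 ∧ m.1 + m.2 ≤ (e : ℤ) := by
    intro m hm
    obtain ⟨h1, h2, h3⟩ := hf0 m hm
    refine ⟨h1, h2, ?_⟩
    have h4 : (1 : ℤ) ≤ δ := by exact_mod_cast (by omega : 1 ≤ δ)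
    nlinarith
  obtain ⟨n, ⟨i0, j0, ha0⟩, hb0⟩ := nod_lead (F := F) ha hb hs0 hab hδ hse
    (pf_ne (fun m hm => ⟨(hf0 m hm).1, (hf0 m hm).2.1⟩) hne0) (pf_good hδ hf0)
  rw [← ev_hom _ _ e f] at ha0
  have h2 : ((ev (UU (xx F a b s) (yy F a b s)) (hom e f)).coeff n).coeff = 0 := by
    apply hE
    · intro m hm
      have hm' : cf (EV (xx F a b s) (yy F a b s) (pf f)) n m.1 m.2 ≠ 0 := by
        rw [← ev_hom _ _ e f]
        exact Finsupp.mem_support_iff.1 hm
      obtain ⟨h3, h4, h5⟩ := hb0 m.1 m.2 hm'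
      refine ⟨h3, ?_, ?_⟩
      · linarith
      · linarith
    · intro i
      exact LM_transfer (hx i) (hy i) (hU i) hf1 (hLM i) n
  apply ha0
  unfold cf
  rw [h2]
  rfl

end Pool.Agent.TH793.NG
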