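import Pool.Agent.H15.G.R_seed8.TH793.NG.Lead
import Pool.Agent.H15.G.R_seed8.TH603.EL.Scal1

/-! Expansion in powers of the equation of the nodal curve, and the leading coefficient. -/

set_option autoImplicit false

namespace Pool.Agent.TH793.NG

open Pool.Agent.TH603.EL Pool.Agent.TH603.EL.Scal2

section dec
variable {F : Type} [Field F]

/-- polynomials in `x` and `y` -/
abbrev PXY (F : Type) [Field F] : Type := Polynomial (Polynomial (HK F))

/-- the right side of the equation `y ^ 2 = (1 + x) (x ^ 2 - 4 t)` -/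
noncomputable def rhs (F : Type) [Field F] : Polynomial (HK F) :=
  (1 + Polynomial.X) * (Polynomial.X ^ 2 - Polynomial.C (4 * HahnSeries.single (1 : ℝ) (1 : F)))

/-- the equation -/
noncomputable def hh (F : Type) [Field F] : PXY F := Polynomial.X ^ 2 - Polynomial.C (rhs F)

theorem rhs_deg (F : Type) [Field F] : (rhs F).natDegree ≤ 3 := by
  unfold rhs
  refine (Polynomial.natDegree_mul_le).trans ?_
  have h1 : (1 + Polynomial.X : Polynomial (HK F)).natDegree ≤ 1 := by
    have : (1 + Polynomial.X : Polynomial (HK F)) = Polynomial.X + Polynomial.C 1 := by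
      rw [Polynomial.C_1, add_comm]
    rw [this, Polynomial.natDegree_X_add_C]
  have h2 : (Polynomial.X ^ 2 - Polynomial.C (4 * HahnSeries.single (1 : ℝ) (1 : F)) :
      Polynomial (HK F)).natDegree ≤ 2 := by
    refine (Polynomial.natDegree_sub_le _ _).trans (max_le ?_ ?_)
    · rw [Polynomial.natDegree_X_pow]
    · rw [Polynomial.natDegree_C]; omega
  omega

/-- weights of the coefficients -/
def Wt (δ : ℕ) (e : ℤ) (A : PXY F) : Prop :=
  ∀ j, A.coeff j = 0 ∨ ((A.coeff j).natDegree : ℤ) + 2 * δ * j ≤ e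

theorem Wt.add {δ : ℕ} {e : ℤ} {A B : PXY F} (hA : Wt δ e A) (hB : Wt δ e B) :
    Wt δ e (A + B) := by
  intro j
  rw [Polynomial.coeff_add]
  rcases hA j with h1 | h1
  · rw [h1, zero_add]; exact hB j
  · rcases hB j with h2 | h2
    · rw [h2, add_zero]; right; exact h1
    · right
      have h3 := Polynomial.natDegree_add_le (A.coeff j) (B.coeff j)
      have h4 : ((A.coeff j + B.coeff j).natDegree : ℤ) ≤
          max ((A.coeff j).natDegree : ℤ) ((B.coeff j).natDegree : ℤ) := by exact_mod_cast h3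
      rcases le_total ((A.coeff j).natDegree : ℤ) ((B.coeff j).natDegree : ℤ) with h5 | h5
      · rw [max_eq_right h5] at h4; omega
      · rw [max_eq_left h5] at h4; omega

theorem Wt.zero {δ : ℕ} {e : ℤ} : Wt δ e (0 : PXY F) := fun j => Or.inl (by simp)

theorem Wt.mulX {δ : ℕ} {e : ℤ} {A : PXY F} (hA : Wt δ (e - 2 * δ) A) :
    Wt δ e (A * Polynomial.X) := by
  intro j
  rcases j with _ | j
  · left; simp
  · rw [Polynomial.coeff_mul_X]
    rcases hA j with h | h
    · left; exact h
    · right; push_cast; linarith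

theorem Wt.C {δ : ℕ} {e : ℤ} {p : Polynomial (HK F)} (hp : p = 0 ∨ (p.natDegree : ℤ) ≤ e) :
    Wt δ e (Polynomial.C p) := by
  intro j
  rcases j with _ | j
  · rw [Polynomial.coeff_C_zero]
    rcases hp with h | h
    · left; exact h
    · right; simpa using h
  · left
    rw [Polynomial.coeff_C_succ]

/-- expansions in powers of the equation -/
def Good (δ : ℕ) (e : ℤ) (p : PXY F) : Prop :=
  ∃ A B : PXY F, Wt δ e A ∧ Wt δ (e - δ) B ∧ p = A.comp (hh F) + B.comp (hh F) * Polynomial.X

theorem Good.zero {δ : ℕ} {e : ℤ} : Good δ e (0 : PXY F) :=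
  ⟨0, 0, Wt.zero, Wt.zero, by simp⟩

theorem Good.add {δ : ℕ} {e : ℤ} {p q : PXY F} (hp : Good δ e p) (hq : Good δ e q) :
    Good δ e (p + q) := by
  obtain ⟨A, B, h1, h2, rfl⟩ := hp
  obtain ⟨A', B', h1', h2', rfl⟩ := hq
  refine ⟨A + A', B + B', h1.add h1', h2.add h2', ?_⟩
  rw [Polynomial.add_comp, Polynomial.add_comp]; ring

theorem Good.sum {δ : ℕ} {e : ℤ} {κ : Type*} (t : Finset κ) (f : κ → PXY F)
    (h : ∀ k ∈ t, Good δ e (f k)) : Good δ e (∑ k ∈ t, f k) := by
  classical
  induction t using Finset.induction_on with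
  | empty => simpa using Good.zero
  | insert k t hk ih =>
    rw [Finset.sum_insert hk]
    exact (h k (Finset.mem_insert_self _ _)).add (ih fun j hj => h j (Finset.mem_insert_of_mem hj))

theorem Good.mulh {δ : ℕ} {e : ℤ} {p : PXY F} (hp : Good δ (e - 2 * δ) p) :
    Good δ e (p * hh F) := by
  obtain ⟨A, B, h1, h2, rfl⟩ := hp
  refine ⟨A * Polynomial.X, B * Polynomial.X, h1.mulX, ?_, ?_⟩
  · apply Wt.mulX
    have : e - (δ : ℤ) - 2 * δ = e - 2 * δ - δ := by ring
    rw [this]; exact h2
  · rw [Polynomial.mul_comp, Polynomial.mul_comp, Polynomial.X_comp]; ring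

theorem Good.mono_pow {δ : ℕ} (hδ : 2 ≤ δ) (k : ℕ) : ∀ (e : ℤ) (p : Polynomial (HK F)),
    (p = 0 ∨ (p.natDegree : ℤ) + δ * k ≤ e) → Good δ e (Polynomial.C p * Polynomial.X ^ k) := by
  induction k using Nat.strong_induction_on with
  | _ k ih =>
    intro e p hp
    rcases k with _ | k
    · refine ⟨Polynomial.C p, 0, Wt.C ?_, Wt.zero, ?_⟩
      · rcases hp with h | h
        · left; exact h
        · right; simpa using h
      · simp
    · rcases k with _ | k
      · refine ⟨0, Polynomial.C p, Wt.zero, Wt.C ?_, ?_⟩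
        · rcases hp with h | h
          · left; exact h
          · right
            push_cast at h
            linarith
        · simp
      · have e1 : Polynomial.C p * Polynomial.X ^ (k + 1 + 1) =
            (Polynomial.C p * Polynomial.X ^ k) * hh F +
              Polynomial.C (p * rhs F) * Polynomial.X ^ k := by
          unfold hh
          rw [Polynomial.C_mul]
          ring
        rw [e1]
        refine (Good.mulh (ih k (by omega) _ p ?_)).add (ih k (by omega) _ _ ?_)
        · rcases hp with h | h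
          · left; exact h
          · right
            push_cast at h ⊢
            linarith
        · rcases hp with h | h
          · left; rw [h, zero_mul]
          · right
            have h2 : ((p * rhs F).natDegree : ℤ) ≤ p.natDegree + 3 := by
              have := (Polynomial.natDegree_mul_le (p := p) (q := rhs F)).trans
                (Nat.add_le_add_left (rhs_deg F) _)
              exact_mod_cast this
            push_cast at h ⊢
            have h3 : (2 : ℤ) ≤ δ := by exact_mod_cast hδ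
            linarith

end dec

section val
variable {F : Type} [Field F]

/-- the value of a polynomial in `x` and `y` -/
noncomputable def EV (x y : HR F) : PXY F →+* HR F :=
  Polynomial.eval₂RingHom (Polynomial.eval₂RingHom incl x) y

theorem EV_C (x y : HR F) (A : Polynomial (HK F)) : EV x y (Polynomial.C A) = evA x A := by
  simp [EV, evA]

theorem EV_X (x y : HR F) : EV x y Polynomial.X = y := by simp [EV]

theorem EV_sub (x y : HR F) (p q : PXY F) : EV x y (p - q) = EV x y p - EV x y q :=
  map_sub (EV x y) p q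

theorem EV_pow (x y : HR F) (p : PXY F) (n : ℕ) : EV x y (p ^ n) = EV x y p ^ n :=
  map_pow (EV x y) p n

theorem EV_comp (x y : HR F) (A : PXY F) (n : ℕ) (hn : A.natDegree < n) :
    EV x y (A.comp (hh F)) = ∑ j ∈ Finset.range n, evA x (A.coeff j) * EV x y (hh F) ^ j := by
  unfold Polynomial.comp
  rw [Polynomial.hom_eval₂, Polynomial.eval₂_eq_sum_range' _ hn]
  refine Finset.sum_congr rfl fun j _ => ?_
  rw [RingHom.comp_apply, EV_C]

theorem incl_t : incl (HahnSeries.single (1 : ℝ) (1 : F)) = tz F 1 0 0 := by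
  classical
  apply cf_ext
  intro n i j
  rw [cf_incl, cf_tz]
  by_cases hn : n = 1
  · subst hn
    simp
  · have h1 : (HahnSeries.single (1 : ℝ) (1 : F)).coeff n = 0 := HahnSeries.coeff_single_of_ne hn
    rw [h1, ite_self, if_neg (fun h => hn h.1)]

theorem EV_hh [CharZero F] {a b s : ℝ} (ha : 0 < a) (hb : 0 < b) (hs : 0 < s) (hab : a + b = 1) :
    EV (xx F a b s) (yy F a b s) (hh F) = -4 * (1 + xx F a b s) * tz F (1 + s) 0 1 := by
  rw [← curve F ha hb hs hab]
  unfold hh rhs
  rw [EV_sub, EV_pow, EV_X, EV_C]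
  unfold evA
  have h4 : incl (4 : HK F) = (4 : HR F) := map_ofNat incl 4
  simp only [Polynomial.eval₂_mul, Polynomial.eval₂_add, Polynomial.eval₂_one, Polynomial.eval₂_X,
    Polynomial.eval₂_sub, Polynomial.eval₂_pow, Polynomial.eval₂_C, map_mul, incl_t, h4]

end val

section lead
variable {F : Type} [Field F] [CharZero F] {a b s : ℝ}

theorem coeff_U (ha : 0 < a) (hb : 0 < b) (hs : 0 < s) (j : ℕ) :
    Low ((-4 * (1 + xx F a b s)) ^ j) 0 ∧
    ((-4 * (1 + xx F a b s)) ^ j).coeff 0 = (-4 : Lau F) ^ j := by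
  have hx := low_xx F ha hb hs
  have hmin : 0 < min a b := lt_min ha hb
  have h1 : Low (1 + xx F a b s) 0 := low_one.add (hx.mono hmin.le)
  have h2 : (1 + xx F a b s).coeff 0 = 1 := by
    rw [HahnSeries.coeff_add, hx 0 hmin, add_zero, HahnSeries.coeff_one, if_pos rfl]
  have h4 : Low (-4 : HR F) 0 := by
    have : (-4 : HR F) = -(1 + 1 + 1 + 1) := by norm_num
    rw [this]
    exact (((low_one.add low_one).add low_one).add low_one).neg
  have h5 : (-4 : HR F).coeff 0 = -4 := by
    have : (-4 : HR F) = -(1 + 1 + 1 + 1) := by norm_num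
    rw [this]
    simp only [HahnSeries.coeff_neg, HahnSeries.coeff_add, HahnSeries.coeff_one, if_true]
    norm_num
  have h6 : Low (-4 * (1 + xx F a b s)) 0 := by
    have := h4.mul h1
    rw [add_zero] at this
    exact this
  have h7 : (-4 * (1 + xx F a b s)).coeff 0 = -4 := by
    have := h4.coeff_mul h1
    rw [add_zero, h2, h5, mul_one] at this
    exact this
  refine ⟨h6.pow_zero' j, ?_⟩
  have := h6.coeff_pow j
  rw [mul_zero, h7] at this
  exact this

/-- the leading coefficient of a nonzero polynomial of weight at most `e` on the tube -/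
theorem nod_lead (ha : 0 < a) (hb : 0 < b) (hs : 0 < s) (hab : a + b = 1) {δ e : ℕ} (hδ : 2 ≤ δ)
    (hse : 2 * (e : ℝ) < s) {p : PXY F} (hp : p ≠ 0) (hg : Good δ e p) :
    ∃ n : ℝ, (∃ i j, cf (EV (xx F a b s) (yy F a b s) p) n i j ≠ 0) ∧
      ∀ i j, cf (EV (xx F a b s) (yy F a b s) p) n i j ≠ 0 →
        0 ≤ j ∧ -(2 * a * (e - 2 * δ * j)) ≤ (i : ℝ) ∧ (i : ℝ) ≤ 2 * b * (e - 2 * δ * j) := by
  classical
  obtain ⟨A, B, hA, hB, rfl⟩ := hg
  obtain ⟨N, hNA, hNB⟩ : ∃ N, A.natDegree < N ∧ B.natDegree < N :=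
    ⟨max A.natDegree B.natDegree + 1, by omega, by omega⟩
  obtain ⟨G, hG⟩ : ∃ G : ℕ → HR F, ∀ j, G j = evA (xx F a b s) (A.coeff j) +
      evA (xx F a b s) (B.coeff j) * yy F a b s := ⟨_, fun _ => rfl⟩
  have hpow : ∀ j : ℕ, tz F (1 + s) 0 1 ^ j = tz F (j * (1 + s)) 0 j := by
    intro j
    induction j with
    | zero =>
      simp only [pow_zero, Nat.cast_zero, zero_mul]
      rfl
    | succ j ih =>
      rw [pow_succ, ih, tz_mul]
      congr 1 <;> (push_cast; ring)
  have hval : EV (xx F a b s) (yy F a b s) (A.comp (hh F) + B.comp (hh F) * Polynomial.X) =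
      ∑ j ∈ Finset.range N, tz F (j * (1 + s)) 0 j * (G j * (-4 * (1 + xx F a b s)) ^ j) := by
    rw [map_add, map_mul, EV_X, EV_comp _ _ A N hNA, EV_comp _ _ B N hNB, Finset.sum_mul,
      ← Finset.sum_add_distrib]
    refine Finset.sum_congr rfl fun j _ => ?_
    rw [EV_hh ha hb hs hab, mul_pow, hpow, hG j]
    ring
  rw [hval]
  -- the indices with nonzero sections
  obtain ⟨J, hJ⟩ : ∃ J : Finset ℕ, J = (Finset.range N).filter fun j => A.coeff j ≠ 0 ∨ B.coeff j ≠ 0 :=
    ⟨_, rfl⟩
  have hJm : ∀ j ∈ J, 0 ≤ (e : ℤ) - 2 * δ * j := by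
    intro j hj
    rw [hJ, Finset.mem_filter] at hj
    have hδ0 : (0 : ℤ) ≤ δ := Int.natCast_nonneg _
    rcases hj.2 with h | h
    · rcases hA j with h1 | h1
      · exact absurd h1 h
      · have : (0 : ℤ) ≤ ((A.coeff j).natDegree : ℤ) := Int.natCast_nonneg _
        linarith
    · rcases hB j with h1 | h1
      · exact absurd h1 h
      · have : (0 : ℤ) ≤ ((B.coeff j).natDegree : ℤ) := Int.natCast_nonneg _
        linarith
  have hlead : ∀ j ∈ J, ∃ n : ℝ, Low (G j) n ∧ (∃ i j', cf (G j) n i j' ≠ 0) ∧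
      ∀ i j', cf (G j) n i j' ≠ 0 → j' = 0 ∧ -(2 * a * (e - 2 * δ * j)) ≤ (i : ℝ) ∧
        (i : ℝ) ≤ 2 * b * (e - 2 * δ * j) := by
    intro j hj
    have hm := hJm j hj
    obtain ⟨m, hm'⟩ := Int.eq_ofNat_of_zero_le hm
    have hmR : (m : ℝ) = e - 2 * δ * j := by
      have := congrArg (Int.cast : ℤ → ℝ) hm'
      push_cast at this
      exact this.symm
    have hj0 : (0 : ℝ) ≤ 2 * δ * j := by positivity
    rw [hJ, Finset.mem_filter] at hj
    have h3 : (2 : ℤ) ≤ δ := by exact_mod_cast hδ
    obtain ⟨n, h1, h2, h4⟩ := g_lead (F := F) ha hb hs hab (m := m) (A.coeff j) (B.coeff j) hj.2 (by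
        rcases hA j with h | h
        · rw [h]; simp
        · have : ((A.coeff j).natDegree : ℤ) ≤ m := by linarith
          exact_mod_cast this) (by
        rcases hB j with h | h
        · left; exact h
        · right
          have : 2 * ((B.coeff j).natDegree : ℤ) + 3 ≤ 2 * m := by linarith
          exact_mod_cast this) (by rw [hmR]; linarith)
    refine ⟨n, by rw [hG j]; exact h1, by rw [hG j]; exact h2, ?_⟩
    intro i j' hij
    rw [hG j] at hij
    obtain ⟨h5, h6, h7⟩ := h4 i j' hij
    rw [hmR] at h6 h7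
    exact ⟨h5, by linarith, by linarith⟩
  choose! nu hnu1 hnu2 hnu3 using hlead
  have hJne : J.Nonempty := by
    by_contra hcon
    rw [Finset.not_nonempty_iff_eq_empty] at hcon
    apply hp
    have hz : ∀ j, A.coeff j = 0 ∧ B.coeff j = 0 := by
      intro j
      by_cases hj : j < N
      · have : j ∉ J := by rw [hcon]; simp
        rw [hJ, Finset.mem_filter] at this
        push Not at this
        exact this (Finset.mem_range.2 hj)
      · exact ⟨Polynomial.coeff_eq_zero_of_natDegree_lt (by omega),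
          Polynomial.coeff_eq_zero_of_natDegree_lt (by omega)⟩
    have hA0 : A = 0 := by ext1 j; simpa using (hz j).1
    have hB0 : B = 0 := by ext1 j; simpa using (hz j).2
    rw [hA0, hB0]; simp
  obtain ⟨j0, hj0, hmin⟩ := Finset.exists_min_image J (fun j => nu j + j * (1 + s)) hJne
  obtain ⟨n0, hn0⟩ : ∃ n0, n0 = nu j0 + j0 * (1 + s) := ⟨_, rfl⟩
  -- the terms
  have hterm : ∀ j ∈ Finset.range N, ∀ i j' : ℤ,
      cf (tz F (j * (1 + s)) 0 j * (G j * (-4 * (1 + xx F a b s)) ^ j)) n0 i j' ≠ 0 →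
      j ∈ J ∧ nu j + j * (1 + s) = n0 ∧ j' = j ∧ cf (G j) (nu j) i 0 ≠ 0 := by
    intro j hj i j' h
    rw [cf_tz_mul] at h
    have hjJ : j ∈ J := by
      by_contra hcon
      rw [hJ, Finset.mem_filter] at hcon
      push Not at hcon
      obtain ⟨hA0, hB0⟩ := hcon hj
      apply h
      rw [hG j, hA0, hB0]
      simp [evA, cf_zero]
    obtain ⟨hU1, hU2⟩ := coeff_U (F := F) ha hb hs j
    have hlow := (hnu1 j hjJ).mul hU1
    rw [add_zero] at hlow
    have hle := hmin j hjJ
    have heq : nu j + j * (1 + s) = n0 := by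
      apply le_antisymm
      · by_contra hlt
        apply h
        unfold cf
        rw [hlow _ (by linarith)]
        simp
      · rw [hn0]; exact hle
    have h1 : n0 - j * (1 + s) = nu j := by linarith
    rw [h1] at h
    have h2 := (hnu1 j hjJ).coeff_mul hU1
    rw [add_zero, hU2] at h2
    have h3 : cf (G j * (-4 * (1 + xx F a b s)) ^ j) (nu j) (i - 0) (j' - j) =
        (-4) ^ j * cf (G j) (nu j) (i - 0) (j' - j) := by
      unfold cf
      rw [h2]
      have : ((-4 : Lau F) ^ j) = algebraMap F (Lau F) ((-4) ^ j) := by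
        rw [map_pow, map_neg, map_ofNat]
      rw [this, mul_comm, ← Algebra.smul_def, AddMonoidAlgebra.coeff_smul, Finsupp.smul_apply,
        smul_eq_mul]
    rw [h3] at h
    have h4 := right_ne_zero_of_mul h
    have h5 := hnu3 j hjJ _ _ h4
    have h6 : j' = j := by have := h5.1; omega
    refine ⟨hjJ, heq, h6, ?_⟩
    rw [h6, sub_self, sub_zero] at h4
    exact h4
  refine ⟨n0, ?_, ?_⟩
  · obtain ⟨i0, j1, h1⟩ := hnu2 j0 hj0
    have h2 := (hnu3 j0 hj0 _ _ h1).1
    rw [h2] at h1
    refine ⟨i0, j0, ?_⟩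
    rw [cf_sum, Finset.sum_eq_single j0]
    · rw [cf_tz_mul]
      obtain ⟨hU1, hU2⟩ := coeff_U (F := F) ha hb hs j0
      have h3 : n0 - j0 * (1 + s) = nu j0 := by linarith
      rw [h3, sub_self, sub_zero]
      have h4 := (hnu1 j0 hj0).coeff_mul hU1
      rw [add_zero, hU2] at h4
      unfold cf
      rw [h4]
      have : ((-4 : Lau F) ^ j0) = algebraMap F (Lau F) ((-4) ^ j0) := by
        rw [map_pow, map_neg, map_ofNat]
      rw [this, mul_comm, ← Algebra.smul_def, AddMonoidAlgebra.coeff_smul, Finsupp.smul_apply,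
        smul_eq_mul]
      refine mul_ne_zero (pow_ne_zero _ ?_) h1
      norm_num
    · intro j hj hne
      by_contra hcon
      have := (hterm j hj _ _ hcon).2.2.1
      apply hne
      exact_mod_cast this.symm
    · intro h
      exfalso
      apply h
      rw [hJ] at hj0
      exact (Finset.mem_filter.1 hj0).1
  · intro i j' h
    rw [cf_sum] at h
    obtain ⟨j, hj, hj'⟩ := Finset.exists_ne_zero_of_sum_ne_zero h
    obtain ⟨h1, h2, h3, h4⟩ := hterm j hj _ _ hj'
    obtain ⟨_, h5, h6⟩ := hnu3 j h1 _ _ h4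
    rw [h3]
    push_cast
    exact ⟨Int.natCast_nonneg _, h5, h6⟩

end lead

end Pool.Agent.TH793.NG
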