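import Pool.Agent.H15.G.R_seed8.TH793.NG.Edge

/-! The tube around the nodal curves `y ^ 2 = (1 + x) (x ^ 2 - 4 t)`. -/

set_option autoImplicit false

namespace Pool.Agent.TH793.NG

open Pool.Agent.TH603.EL Pool.Agent.TH603.EL.Scal2

section gen
variable {F : Type} [Field F]

theorem tz_mul (d e : ℝ) (i j k l : ℤ) :
    tz F d i j * tz F e k l = tz F (d + e) (i + k) (j + l) := by
  unfold tz
  rw [HahnSeries.single_mul_single, AddMonoidAlgebra.single_mul_single]
  simp

theorem orderTop_pos_of_low {x : HR F} {c : ℝ} (hc : 0 < c) (h : Low x c) : 0 < x.orderTop := by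
  by_cases hx : x = 0
  · subst hx
    simp
  · rw [← HahnSeries.order_eq_orderTop_of_ne_zero hx]
    have h1 : x.coeff x.order ≠ 0 := HahnSeries.coeff_order_eq_zero.not.2 hx
    have h2 : c ≤ x.order := by
      by_contra h3
      exact h1 (h _ (not_le.1 h3))
    have h3 : (0 : ℝ) < x.order := lt_of_lt_of_le hc h2
    exact_mod_cast h3

variable [CharZero F]

/-- the square root of `1 + x` -/
noncomputable def rt (x : HR F) : HR F :=
  PowerSeries.heval x (PowerSeries.binomialSeries (Lau F) (1 / 2 : ℚ))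

theorem rt_mul {x : HR F} (hx : 0 < x.orderTop) : rt x * rt x = 1 + x := by
  unfold rt
  rw [← map_mul, ← PowerSeries.binomialSeries_add]
  have h : (1 / 2 : ℚ) + 1 / 2 = ((1 : ℕ) : ℚ) := by norm_num
  rw [h, PowerSeries.binomialSeries_nat, pow_one, map_add, map_one, PowerSeries.heval_X _ hx]

theorem rt_wedge {a b s : ℝ} {x : HR F} (hx : 0 < x.orderTop) (h : Mc a b s 0 x) :
    Mc a b s 0 (rt x) := by
  intro n i j hn
  have h1 : (rt x).coeff n = ∑ k ∈ ((HahnSeries.SummableFamily.powerSeriesFamily x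
      (PowerSeries.binomialSeries (Lau F) (1 / 2 : ℚ))).coeff n).support,
      (HahnSeries.SummableFamily.powerSeriesFamily x
      (PowerSeries.binomialSeries (Lau F) (1 / 2 : ℚ)) k).coeff n := by
    unfold rt
    rw [PowerSeries.heval_apply, HahnSeries.SummableFamily.coeff_hsum_eq_sum]
  unfold cf at hn
  rw [h1] at hn
  obtain ⟨k, hk⟩ : ∃ k : ℕ, ((HahnSeries.SummableFamily.powerSeriesFamily x
      (PowerSeries.binomialSeries (Lau F) (1 / 2 : ℚ)) k).coeff n).coeff (i, j) ≠ 0 := by
    by_contra hc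
    push Not at hc
    apply hn
    have : ∀ t : Finset ℕ, (∑ k ∈ t, (HahnSeries.SummableFamily.powerSeriesFamily x
      (PowerSeries.binomialSeries (Lau F) (1 / 2 : ℚ)) k).coeff n).coeff (i, j) = 0 := by
      classical
      intro t
      induction t using Finset.induction_on with
      | empty => simp
      | insert q t hq ih =>
        rw [Finset.sum_insert hq, AddMonoidAlgebra.coeff_add, Finsupp.add_apply, ih, hc q, add_zero]
    exact this _
  rw [HahnSeries.SummableFamily.powerSeriesFamily_of_orderTop_pos hx,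
    PowerSeries.binomialSeries_coeff] at hk
  apply h.pow k n i j
  intro h0
  apply hk
  unfold cf at h0
  rw [HahnSeries.coeff_smul, smul_assoc, one_smul, AddMonoidAlgebra.coeff_smul, Finsupp.smul_apply,
    h0, smul_zero]

theorem cf_rt (x : HR F) : cf (rt x) 0 0 0 = 1 := by
  unfold cf rt
  rw [PowerSeries.coeff_heval_zero, PowerSeries.binomialSeries_constantCoeff,
    AddMonoidAlgebra.one_def, AddMonoidAlgebra.coeff_single]
  exact Finsupp.single_eq_same

end gen

section coord
variable (F : Type) [Field F] [CharZero F] (a b s : ℝ)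

/-- the first coordinate at the node -/
noncomputable def pP : HR F := tz F a 1 0
/-- the second coordinate at the node -/
noncomputable def pQ : HR F := tz F b (-1) 0 + tz F (b + s) (-1) 1
/-- the coordinate `x` -/
noncomputable def xx : HR F := pP F a + pQ F b s
/-- the coordinate `y` -/
noncomputable def yy : HR F := rt (xx F a b s) * (pQ F b s - pP F a)

variable {a b s}

theorem low_xx (ha : 0 < a) (hb : 0 < b) (hs : 0 < s) : Low (xx F a b s) (min a b) := by
  unfold xx pP pQ
  refine ((low_tz a 1 0).mono (min_le_left a b)).add (((low_tz b (-1) 0).mono (min_le_right a b)).add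
    ((low_tz (b + s) (-1) 1).mono ?_))
  exact (min_le_right a b).trans (by linarith)

theorem ord_xx (ha : 0 < a) (hb : 0 < b) (hs : 0 < s) : 0 < (xx F a b s).orderTop :=
  orderTop_pos_of_low (lt_min ha hb) (low_xx F ha hb hs)

theorem Mc_P (ha : 0 < a) (hb : 0 < b) (hs : 0 < s) : Mc a b s 0 (pP F a) :=
  Mc.tz le_rfl (by push_cast; linarith) (by push_cast; linarith)

theorem Mc_Q (ha : 0 < a) (hb : 0 < b) (hs : 0 < s) : Mc a b s 0 (pQ F b s) :=
  (Mc.tz le_rfl (by push_cast; linarith) (by push_cast; linarith)).add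
    (Mc.tz (by norm_num) (by push_cast; linarith) (by push_cast; linarith))

theorem Mc_xx (ha : 0 < a) (hb : 0 < b) (hs : 0 < s) : Mc a b s 0 (xx F a b s) :=
  (Mc_P F ha hb hs).add (Mc_Q F ha hb hs)

theorem Mc_yy (ha : 0 < a) (hb : 0 < b) (hs : 0 < s) : Mc a b s 0 (yy F a b s) := by
  have := (rt_wedge (ord_xx F ha hb hs) (Mc_xx F ha hb hs)).mul
    ((Mc_Q F ha hb hs).sub (Mc_P F ha hb hs))
  rw [add_zero] at this
  exact this

theorem PQ (hab : a + b = 1) : pP F a * pQ F b s = tz F 1 0 0 + tz F (1 + s) 0 1 := by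
  unfold pP pQ
  rw [mul_add, tz_mul, tz_mul, hab, ← add_assoc, hab]
  norm_num

/-- the equation of the curve on the tube -/
theorem curve (ha : 0 < a) (hb : 0 < b) (hs : 0 < s) (hab : a + b = 1) :
    yy F a b s ^ 2 - (1 + xx F a b s) * (xx F a b s ^ 2 - 4 * tz F 1 0 0) =
      -4 * (1 + xx F a b s) * tz F (1 + s) 0 1 := by
  have h1 := rt_mul (ord_xx F ha hb hs)
  have h2 := PQ F (s := s) hab
  have h3 : yy F a b s ^ 2 = (1 + xx F a b s) * (pQ F b s - pP F a) ^ 2 := by
    unfold yy
    rw [mul_pow, sq (rt _), h1]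
  have h4 : (pQ F b s - pP F a) ^ 2 = xx F a b s ^ 2 - 4 * (pP F a * pQ F b s) := by
    unfold xx; ring
  rw [h3, h4, h2]
  ring

theorem Ep_P (ha : 0 < a) : Ep a 0 (pP F a) = PowerSeries.X := by
  classical
  ext k
  simp only [Ep, PowerSeries.coeff_mk, pP, cf_tz, PowerSeries.coeff_X]
  by_cases hk : k = 1
  · subst hk
    rw [if_pos rfl, if_pos]
    exact ⟨by simp, by simp, trivial⟩
  · rw [if_neg hk, if_neg]
    rintro ⟨_, h, _⟩
    exact hk (by exact_mod_cast h)

theorem Ep_Q : Ep a 0 (pQ F b s) = 0 := by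
  classical
  ext k
  simp only [Ep, PowerSeries.coeff_mk, pQ, cf_add, cf_tz, map_zero]
  rw [if_neg, if_neg, add_zero]
  · rintro ⟨_, h, _⟩; omega
  · rintro ⟨_, h, _⟩; omega

theorem Em_P : Em b 0 (pP F a) = 0 := by
  classical
  ext k
  simp only [Em, PowerSeries.coeff_mk, pP, cf_tz, map_zero]
  rw [if_neg]
  rintro ⟨_, h, _⟩; omega

theorem Em_Q : Em b 0 (pQ F b s) = PowerSeries.X := by
  classical
  ext k
  simp only [Em, PowerSeries.coeff_mk, pQ, cf_add, cf_tz, PowerSeries.coeff_X]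
  rw [if_neg (c := (_ ∧ _ ∧ (0 : ℤ) = 1)), add_zero]
  · by_cases hk : k = 1
    · subst hk
      rw [if_pos rfl, if_pos]
      exact ⟨by simp, by simp, trivial⟩
    · rw [if_neg hk, if_neg]
      rintro ⟨_, h, _⟩
      apply hk; omega
  · rintro ⟨_, _, h⟩
    exact absurd h (by norm_num)

theorem Ep_xx (ha : 0 < a) : Ep a 0 (xx F a b s) = PowerSeries.X := by
  unfold xx; rw [Ep_add, Ep_P F ha, Ep_Q, add_zero]

theorem Em_xx : Em b 0 (xx F a b s) = PowerSeries.X := by
  unfold xx; rw [Em_add, Em_P, Em_Q, zero_add]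

/-- the two edges of the coordinate `y` -/
theorem edges_yy (ha : 0 < a) (hb : 0 < b) (hs : 0 < s) : ∃ σ : PowerSeries F,
    σ * σ = 1 + PowerSeries.X ∧ Ep a 0 (yy F a b s) = -(σ * PowerSeries.X) ∧
      Em b 0 (yy F a b s) = σ * PowerSeries.X := by
  have hrt := rt_wedge (ord_xx F ha hb hs) (Mc_xx F ha hb hs)
  have h1 : Ep a 0 (rt (xx F a b s)) * Ep a 0 (rt (xx F a b s)) = 1 + PowerSeries.X := by
    have h2 := Ep_mul ha hb hs hrt hrt
    rw [rt_mul (ord_xx F ha hb hs), add_zero, Ep_add, Ep_one ha, Ep_xx F ha] at h2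
    exact h2.symm
  have h1' : Em b 0 (rt (xx F a b s)) * Em b 0 (rt (xx F a b s)) = 1 + PowerSeries.X := by
    have h2 := Em_mul ha hb hs hrt hrt
    rw [rt_mul (ord_xx F ha hb hs), add_zero, Em_add, Em_one hb, Em_xx F] at h2
    exact h2.symm
  have c1 : PowerSeries.coeff 0 (Ep a 0 (rt (xx F a b s))) = 1 := by
    simp only [Ep, PowerSeries.coeff_mk]
    have := cf_rt (xx F a b s)
    simpa using this
  have c2 : PowerSeries.coeff 0 (Em b 0 (rt (xx F a b s))) = 1 := by
    simp only [Em, PowerSeries.coeff_mk]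
    have := cf_rt (xx F a b s)
    simpa using this
  have h3 : Ep a 0 (rt (xx F a b s)) = Em b 0 (rt (xx F a b s)) := by
    have h4 : (Ep a 0 (rt (xx F a b s)) - Em b 0 (rt (xx F a b s))) *
        (Ep a 0 (rt (xx F a b s)) + Em b 0 (rt (xx F a b s))) = 0 := by
      linear_combination h1 - h1'
    rcases mul_eq_zero.1 h4 with h5 | h5
    · exact sub_eq_zero.1 h5
    · exfalso
      have h6 := congrArg (PowerSeries.coeff 0) h5
      rw [map_add, c1, c2, map_zero] at h6
      have : (2 : F) ≠ 0 := two_ne_zero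
      apply this
      rw [← h6]; norm_num
  refine ⟨Ep a 0 (rt (xx F a b s)), h1, ?_, ?_⟩
  · have h5 := Ep_mul ha hb hs hrt ((Mc_Q F ha hb hs).sub (Mc_P F ha hb hs))
    rw [add_zero, sub_eq_add_neg, Ep_add, Ep_neg, Ep_Q, Ep_P F ha, zero_add] at h5
    unfold yy
    rw [sub_eq_add_neg, h5]
    ring
  · have h5 := Em_mul ha hb hs hrt ((Mc_Q F ha hb hs).sub (Mc_P F ha hb hs))
    rw [add_zero, sub_eq_add_neg, Em_add, Em_neg, Em_Q, Em_P F, neg_zero, add_zero] at h5
    unfold yy
    rw [sub_eq_add_neg, h5, h3]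

end coord

end Pool.Agent.TH793.NG
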